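import Pool.Agent.N193.PS.Mult
import Pool.Agent.Results.MP_dd84fd_nt.QuadraticNeighbourhoods

/-!
# Goldbach representations of the multiples of almost all moduli among the values of functions of non-integral index

The statement uses the following definitions from `Pool.Agent.H560R3.GB`: `g m`: the number of ordered representations of
`m` as a sum of two primes; `sing m`: the singular series `2 C₂ ∏_{p ∣ m, p > 2} (p - 1) / (p - 2)`, where
`C₂ = ∏_{p > 2} (1 - 1 / (p - 1) ^ 2)`.

From Mathlib: `ContDiffAt ℝ ⊤`: infinitely differentiable at a point; `iteratedDeriv m f`: the derivative of order `m`;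
`⌊y⌋₊`: the integer part of `y`, and `0` for `y < 0`.

Method: the characteristic function of the integer part of `f n` is small at all frequencies which are not close to
integers (van der Corput differencing and the inequality of Kusmin and Landau on dyadic blocks for all orders of
differencing, a discrete Fejer kernel for the passage to integer parts), and the values are not concentrated on short
intervals. The passage from the thin
large spectrum of the multiples to Goldbach windows is from the starting files (`Pool.Agent.Y885`) and helper625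
(`Pool.Agent.N625.PT`).
-/

set_option autoImplicit false

namespace Pool.Agent.Results.MP_92f640_nt.NonIntegralOrderModuli

open Finset Filter Pool.Agent.H560R3.GB

/-- `f` is smoothly varying of index `c`: it is infinitely differentiable and positive for large arguments, and
`t ^ m f⁽ᵐ⁾(t) / f(t) → c (c - 1) ... (c - m + 1)` for every `m`. -/
def SmoothlyVarying (c : ℝ) (f : ℝ → ℝ) : Prop :=
  (∃ t₀ : ℝ, ∀ t > t₀, ContDiffAt ℝ ((⊤ : ℕ∞) : WithTop ℕ∞) f t ∧ 0 < f t) ∧
  ∀ m : ℕ, Tendsto (fun t => t ^ m * iteratedDeriv m f t / f t) atTop (nhds (∏ i ∈ range m, (c - i)))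

/-- `g n ≥ 1.3 n / log ^ 2 n`, and `g n` is `sing n * n / log ^ 2 n` up to a relative error of at most `ε`. -/
def Rep (ε : ℝ) (n : ℕ) : Prop :=
  13 / 10 * ((n : ℝ) / Real.log n ^ 2) ≤ g n ∧
    |(g n : ℝ) - sing n * ((n : ℝ) / Real.log n ^ 2)| ≤ ε * (sing n * ((n : ℝ) / Real.log n ^ 2))

lemma rep_of (ε : ℝ) (m : ℕ) (hm : 3 ≤ m) (hw : Pool.Agent.W93.PG.WinP (min ε (1 / 200)) 1 m) : Rep ε m := by
  obtain ⟨h1, h2⟩ := MP_dd84fd_nt.QuadraticNeighbourhoods.holds_of 1 ε m hm hw
  refine ⟨h1, ?_⟩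
  have hmr : (3 : ℝ) ≤ m := by exact_mod_cast hm
  have hlog : 1 ≤ Real.log m := by
    rw [Real.le_log_iff_exp_le (by linarith)]
    linarith [Real.exp_one_lt_d9]
  have h3 := (h2 0 m (by omega) le_rfl (by
    rw [Nat.cast_zero, sub_zero]
    exact div_le_self (by linarith) (one_le_pow₀ hlog))).2
  rw [MP_dd84fd_nt.QuadraticNeighbourhoods.G_full, Nat.cast_zero, sub_zero] at h3
  exact h3

/-- The modulus `q` has no exceptional even multiples up to `y q`: every even integer `n` with `0 < n ≤ y q` and `q ∣ n`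
satisfies `Rep ε n`. -/
def NoExceptions (ε y : ℝ) (q : ℕ) : Prop := ∀ n : ℕ, 0 < n → Even n → q ∣ n → (n : ℝ) ≤ y * q → Rep ε n

open Classical in
/-- **(1)** Let `f` be smoothly varying of an index `c > 0` which is not an integer, and let `κ ≠ 0`, `B`, `J`, `W`, `U`, `A` and
`ε > 0` be fixed. Let `N` be large, let `x` be such that `f n ≤ N` for the integers `1 ≤ n ≤ x` and `N ≤ f x log ^ A N`, and let
`|c₀| ≤ B N`. For all the integers `1 ≤ n ≤ x`, with at most `x / log ^ U N` exceptions, ALL the moduli `q ≥ 1` with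
`|q - (c₀ + κ ⌊f n⌋)| ≤ log ^ W N` have no exceptional even multiples up to `q log ^ J N`: every even `m` with
`0 < m ≤ q log ^ J N` and `q ∣ m` is the sum of two primes in at least `1.3 m / log ^ 2 m` ways, and in the number of ways which
Hardy and Littlewood expect up to a relative error of at most `ε`.

**(2)** Part (1) applies to all the functions `f t = ∑ a z t ^ z.1 (log t) ^ z.2` (finite sums) with a leading term `z₀`
whose coefficient is positive and whose exponent `c = z₀.1` is positive and not an integer; for example to `n ^ c`. -/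
theorem result :
    (∀ (c : ℝ) (f : ℝ → ℝ), 0 < c → (∀ m : ℕ, c ≠ m) → SmoothlyVarying c f →
      ∀ κ : ℤ, κ ≠ 0 → ∀ B J W U A : ℕ, ∀ ε : ℝ, 0 < ε → ∃ N₀ : ℕ, ∀ N : ℕ, N₀ ≤ N → ∀ x : ℕ,
      (∀ n ∈ Icc 1 x, f n ≤ N) → (N : ℝ) ≤ Real.log N ^ A * f x → ∀ c₀ : ℤ, |c₀| ≤ B * N →
        (((Icc 1 x).filter fun n : ℕ => ¬ ∀ q : ℕ, 1 ≤ q →
          ((|(q : ℤ) - (c₀ + κ * (⌊f n⌋₊ : ℕ))| : ℤ) : ℝ) ≤ Real.log N ^ W →
            NoExceptions ε (Real.log N ^ J) q).card : ℝ) ≤ x / Real.log N ^ U) ∧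
    (∀ (F : Finset (ℝ × ℝ)) (a : ℝ × ℝ → ℝ) (z₀ : ℝ × ℝ), z₀ ∈ F → 0 < a z₀ →
      (∀ z ∈ F, z ≠ z₀ → z.1 < z₀.1 ∨ z.1 = z₀.1 ∧ z.2 < z₀.2) →
      SmoothlyVarying z₀.1 (fun t => ∑ z ∈ F, a z * t ^ z.1 * Real.log t ^ z.2)) := by
  refine ⟨fun c f hc hn hf κ hκ B J W U A ε hε => ?_, fun F a z₀ h1 h2 h3 => Pool.Agent.N193.PS.gp_sv F a z₀ h1 h2 h3⟩
  obtain ⟨N₀, hmain⟩ := Pool.Agent.N193.PS.sv_mult c f hc hn hf κ hκ B J 1 W U A 3 (min ε (1 / 200)) (lt_min hε (by norm_num))
    (Rep ε) (fun m hm _ hw => rep_of ε m hm hw)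
  refine ⟨N₀, fun N hN x hup hlow c₀ hc₀ => ?_⟩
  refine le_trans (Nat.cast_le.2 (card_le_card fun n hn => ?_)) (hmain N hN x hup hlow c₀ hc₀)
  rw [mem_filter] at hn ⊢
  refine ⟨hn.1, fun hcon => hn.2 ?_⟩
  rintro q hq1 hq2 m hm0 hm2 ⟨h, rfl⟩ hmq
  have hq0 : (0 : ℝ) < q := by exact_mod_cast hq1
  have hh1 : 1 ≤ h := by
    rcases Nat.eq_zero_or_pos h with rfl | h0
    · simp at hm0
    · exact h0
  have hh2 : (h : ℝ) ≤ Real.log N ^ J := by
    push_cast at hmq
    rw [mul_comm] at hmq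
    exact le_of_mul_le_mul_right hmq hq0
  have e : (h : ℤ) * (q : ℤ) = ((q * h : ℕ) : ℤ) := by push_cast; ring
  have h4 := hcon h hh1 hh2 q hq2 (by rw [e]; exact_mod_cast hm0) (by rw [e]; exact_mod_cast hm2.two_dvd)
  rw [e, Int.toNat_natCast] at h4
  exact h4

end Pool.Agent.Results.MP_92f640_nt.NonIntegralOrderModuli
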