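import Pool.Agent.N384.MQ.Mult
import Pool.Agent.N384.MQ.Ex
import Pool.Agent.N384.MQ.Quot
import Pool.Agent.Results.MP_dd84fd_nt.QuadraticNeighbourhoods

/-!
# Goldbach representations of the multiples of all moduli near residues with small Fourier coefficients

The statement uses the following definitions from `Pool.Agent.H560R3.GB`: `g m`: the number of ordered representations of
`m` as a sum of two primes; `sing m`: the singular series `2 C₂ ∏_{p ∣ m, p > 2} (p - 1) / (p - 2)`, where
`C₂ = ∏_{p > 2} (1 - 1 / (p - 1) ^ 2)`.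
From Mathlib: `ZMod.stdAddChar`: the additive character `j ↦ exp (2 π i j / M)` of the integers modulo `M`; `ZMod.val`: the
least residue.

Method: a family of residues modulo `M` with small Fourier coefficients has small exponential sums at all real
frequencies which are not close to integers, its least residues are not concentrated on short intervals, and the large
spectrum of all their multiples is thin. The passage from such exponential sums to Goldbach representations of all the
multiples of almost all moduli is from the starting files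
(`Pool.Agent.Y958`, `Pool.Agent.Y885`) and helper625 (`Pool.Agent.N625.PT`). The fixed exponent `V` comes from a compactness
argument. Examples: a lemma of Ajtai, Iwaniec, Komlos, Pintz and Szemeredi on quotients by small primes, the Stepanov type
lemma of Heath-Brown and Konyagin for subgroups (library `H435R3.HBK`, `N825.FC`), and Weyl sums without losses (library
`H373R2.NB`).
-/

set_option autoImplicit false

namespace Pool.Agent.Results.MP_92f640_nt.ResidueFamilies

open Finset Filter Pool.Agent.H560R3.GB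

/-- The Fourier coefficients of the residues `y i`, `i ∈ s`, modulo `q` at the nonzero frequencies are at most
`η` times the number of the residues: `|∑ i ∈ s, e(h y_i / q)| ≤ η |s|` for all `h ≠ 0` modulo `q`. -/
def Flat {ι : Type} (q : ℕ) [NeZero q] (η : ℝ) (s : Finset ι) (y : ι → ZMod q) : Prop :=
  ∀ h : ZMod q, h ≠ 0 → ‖∑ i ∈ s, (ZMod.stdAddChar (h * y i) : ℂ)‖ ≤ η * s.card

/-- `g n ≥ 1.3 n / log ^ 2 n`, and `g n` is `sing n * n / log ^ 2 n` up to a relative error of at most `ε`. -/
def Rep (ε : ℝ) (n : ℕ) : Prop :=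
  13 / 10 * ((n : ℝ) / Real.log n ^ 2) ≤ g n ∧
    |(g n : ℝ) - sing n * ((n : ℝ) / Real.log n ^ 2)| ≤ ε * (sing n * ((n : ℝ) / Real.log n ^ 2))

lemma rep_of (ε : ℝ) (m : ℕ) (hm : 3 ≤ m) (hw : Pool.Agent.W93.PG.WinP (min ε (1 / 200)) 1 m) : Rep ε m := by
  obtain ⟨h1, h2⟩ := MP_dd84fd_nt.QuadraticNeighbourhoods.holds_of 1 ε m hm hw
  refine ⟨h1, ?_⟩
  have hmr : (3 : ℝ) ≤ m := by exact_mod_cast hm
  have hlog : 1 ≤ Real.log m := by
    rw [Real.le_log_iff_exp_le (by linarith)]
    linarith [Real.exp_one_lt_d9]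
  have h3 := (h2 0 m (by omega) le_rfl (by
    rw [Nat.cast_zero, sub_zero]
    exact div_le_self (by linarith) (one_le_pow₀ hlog))).2
  rw [MP_dd84fd_nt.QuadraticNeighbourhoods.G_full, Nat.cast_zero, sub_zero] at h3
  exact h3

/-- The modulus `q` has no exceptional even multiples up to `y q`: every even integer `n` with `0 < n ≤ y q` and `q ∣ n`
satisfies `Rep ε n`. -/
def NoExceptions (ε y : ℝ) (q : ℕ) : Prop := ∀ n : ℕ, 0 < n → Even n → q ∣ n → (n : ℝ) ≤ y * q → Rep ε n

open Classical in
/-- **(1)** Let `κ ≠ 0`, `J`, `W`, `U`, `a` and `ε > 0` be fixed. There is a number `V` such that the following holds for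
all large integers `M`. Let `y i`, `i ∈ s`, be a finite family of residues modulo `M` whose Fourier coefficients at the
nonzero frequencies are at most `|s| / log ^ V M`, and let `|c| ≤ M log ^ a M`. Then all the `i ∈ s`, with at most
`|s| / log ^ U M` exceptions, have the following property: ALL the moduli `q ≥ 1` with `|q - (c + κ y_i)| ≤ log ^ W M`
(with the least residue `0 ≤ y_i < M`) have no exceptional even multiples up to `q log ^ J M`: every even `m` with
`0 < m ≤ q log ^ J M` and `q ∣ m` is the sum of two primes in at least `1.3 m / log ^ 2 m` ways, and in the number of ways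
which Hardy and Littlewood expect up to a relative error of at most `ε`.

**(2)**, **(3)** Examples. The condition of (1) holds modulo all large primes `p` for:
* the quotients `j / r` of the integers `0 ≤ j < S` by the primes `r ≤ R`, if `log ^ (V + 4) p ≤ R < p` and `R ^ 2 ≤ S`; thus
  there are such explicit sets with only `log ^ (3 V + 12) p` members, in the short intervals around almost all members
  of which (and around almost all members of all their translates) all the moduli have this property;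
* the cosets of all subgroups of the multiplicative group of an order of at least `p ^ (3/8) log ^ (3 V + 1) p`;
* the residues `a b + g(a) + k(b)`, `a ∈ A`, `b ∈ B`, for arbitrary sets with `|A| |B| ≥ p log ^ (2 V) p` and arbitrary
  functions `g` and `k`;
* the values `f(n)`, `0 ≤ n < x`, of all integer polynomials of degree `d` whose leading coefficient is not divisible by
  `p`, if `x ^ d ≥ p log ^ C p`, where `C` depends on `d` and `V`. -/
theorem result :
    (∀ (κ : ℤ), κ ≠ 0 → ∀ (J W U a : ℕ) (ε : ℝ), 0 < ε → ∃ V M₀ : ℕ, ∀ M : ℕ, M₀ ≤ M → ∀ [NeZero M]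
      (ι : Type) (s : Finset ι) (y : ι → ZMod M), Flat M (1 / Real.log M ^ V) s y →
      ∀ c : ℤ, |(c : ℝ)| ≤ M * Real.log M ^ a →
        ((s.filter fun i => ¬ ∀ q : ℕ, 1 ≤ q → |(q : ℝ) - (c + κ * ((y i).val : ℕ))| ≤ Real.log M ^ W →
          NoExceptions ε (Real.log M ^ J) q).card : ℝ) ≤ s.card / Real.log M ^ U) ∧
    (∀ V : ℕ, ∃ P₀ : ℕ, ∀ p : ℕ, P₀ ≤ p → ∀ [Fact p.Prime],
      (∀ R S : ℕ, Real.log p ^ (V + 4) ≤ R → R < p → R ^ 2 ≤ S →
        Flat p (1 / Real.log p ^ V) (((Icc 1 R).filter Nat.Prime) ×ˢ range S)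
          (fun z => ((z.2 : ℕ) : ZMod p) * ((z.1 : ℕ) : ZMod p)⁻¹)) ∧
      (∀ (H : Subgroup (ZMod p)ˣ) (s : Finset (ZMod p)ˣ), (∀ u, u ∈ s ↔ u ∈ H) →
        (p : ℝ) ^ (3 / 8 : ℝ) * Real.log p ^ (3 * V + 1) ≤ s.card → ∀ x : ZMod p, x ≠ 0 →
        Flat p (1 / Real.log p ^ V) s (fun u => x * (u : ZMod p))) ∧
      (∀ (A B : Finset (ZMod p)) (g k : ZMod p → ZMod p), (p : ℝ) * Real.log p ^ (2 * V) ≤ A.card * B.card →
        Flat p (1 / Real.log p ^ V) (A ×ˢ B) (fun z => z.1 * z.2 + g z.1 + k z.2))) ∧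
    (∀ d V : ℕ, 1 ≤ d → ∃ C P₀ : ℕ, ∀ p : ℕ, P₀ ≤ p → ∀ [Fact p.Prime] (f : Polynomial ℤ), f.natDegree = d →
      ¬ (p : ℤ) ∣ f.leadingCoeff → ∀ x : ℕ, (p : ℝ) * Real.log p ^ C ≤ (x : ℝ) ^ d →
      Flat p (1 / Real.log p ^ V) (range x) (fun n => ((f.eval (n : ℤ) : ℤ) : ZMod p))) := by
  refine ⟨fun κ hκ J W U a ε hε => ?_, fun V => ?_, fun d V hd => ?_⟩
  · obtain ⟨V, M₀, hmain⟩ := Pool.Agent.N384.MQ.mq_mult κ hκ J 1 W U a 3 (min ε (1 / 200)) (lt_min hε (by norm_num))
      (Rep ε) (fun m hm _ hw => rep_of ε m hm hw)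
    refine ⟨V, M₀, fun M hM _ ι s y hf c hc => ?_⟩
    refine le_trans (Nat.cast_le.2 (card_le_card fun n hn => ?_)) (hmain M hM ι s y hf c hc)
    rw [mem_filter] at hn ⊢
    refine ⟨hn.1, fun hcon => hn.2 ?_⟩
    rintro q hq1 hq2 m hm0 hm2 ⟨h, rfl⟩ hmq
    have hq0 : (0 : ℝ) < q := by exact_mod_cast hq1
    have hh1 : 1 ≤ h := by
      rcases Nat.eq_zero_or_pos h with rfl | h0
      · simp at hm0
      · exact h0
    have hh2 : (h : ℝ) ≤ Real.log M ^ J := by
      push_cast at hmq
      rw [mul_comm] at hmq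
      exact le_of_mul_le_mul_right hmq hq0
    have e : (h : ℤ) * (q : ℤ) = ((q * h : ℕ) : ℤ) := by push_cast; ring
    have h4 := hcon h hh1 hh2 q (by rw [Int.cast_natCast]; exact hq2) (by rw [e]; exact_mod_cast hm0)
      (by rw [e]; exact_mod_cast hm2.two_dvd)
    rw [e, Int.toNat_natCast] at h4
    exact h4
  · obtain ⟨P₁, h1⟩ := Pool.Agent.N384.MQ.flat_quot V
    obtain ⟨P₂, h2⟩ := Pool.Agent.N384.MQ.flat_coset V
    obtain ⟨P₃, h3⟩ := Pool.Agent.N384.MQ.flat_prod V
    exact ⟨P₁ + P₂ + P₃, fun p hp _ => ⟨fun R S => h1 p (by omega) R S, fun H s => h2 p (by omega) H s,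
      fun A B g k => h3 p (by omega) A B g k⟩⟩
  · exact Pool.Agent.N384.MQ.flat_poly d V hd

end Pool.Agent.Results.MP_92f640_nt.ResidueFamilies
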