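import Pool.Agent.N469.TL.Mult
import Pool.Agent.Results.MP_dd84fd_nt.QuadraticNeighbourhoods

/-!
# Goldbach representations of all the even multiples of all the moduli near almost all smooth numbers

The statement uses the following definitions from `Pool.Agent.H560R3.GB`: `g m`: the number of ordered representations of
`m` as a sum of two primes; `sing m`: the singular series `2 C₂ ∏_{p ∣ m, p > 2} (p - 1) / (p - 2)`, where
`C₂ = ∏_{p > 2} (1 - 1 / (p - 1) ^ 2)`.

The proof combines an elementary bound for the exponential sum over the integers composed of primes from a given set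
(`Pool.Agent.N469.SQ.exp_alt`: it is large only near few rational numbers with small denominators) with the second moment
method of the starting files for Goldbach pairs in windows (`Pool.Agent.Y885.tl_windows`), applied to all the multiples.
-/

set_option autoImplicit false

namespace Pool.Agent.Results.MP_92f640_nt.SmoothModuli

open Finset Pool.Agent.H560R3.GB

/-- `g n ≥ 1.3 n / log ^ 2 n`, and `g n` is `sing n * n / log ^ 2 n` up to a relative error of at most `ε`. -/
def Rep (ε : ℝ) (n : ℕ) : Prop :=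
  13 / 10 * ((n : ℝ) / Real.log n ^ 2) ≤ g n ∧
    |(g n : ℝ) - sing n * ((n : ℝ) / Real.log n ^ 2)| ≤ ε * (sing n * ((n : ℝ) / Real.log n ^ 2))

lemma rep_of (ε : ℝ) (m : ℕ) (hm : 3 ≤ m) (hw : Pool.Agent.W93.PG.WinP (min ε (1 / 200)) 1 m) : Rep ε m := by
  obtain ⟨h1, h2⟩ := MP_dd84fd_nt.QuadraticNeighbourhoods.holds_of 1 ε m hm hw
  refine ⟨h1, ?_⟩
  have hmr : (3 : ℝ) ≤ m := by exact_mod_cast hm
  have hlog : 1 ≤ Real.log m := by
    rw [Real.le_log_iff_exp_le (by linarith)]
    linarith [Real.exp_one_lt_d9]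
  have h3 := (h2 0 m (by omega) le_rfl (by
    rw [Nat.cast_zero, sub_zero]
    exact div_le_self (by linarith) (one_le_pow₀ hlog))).2
  rw [MP_dd84fd_nt.QuadraticNeighbourhoods.G_full, Nat.cast_zero, sub_zero] at h3
  exact h3

/-- The modulus `q` has no exceptional even multiples up to `y q`: every even integer `n` with `0 < n ≤ y q` and `q ∣ n`
satisfies `Rep ε n`. -/
def NoExceptions (ε y : ℝ) (q : ℕ) : Prop := ∀ n : ℕ, 0 < n → Even n → q ∣ n → (n : ℝ) ≤ y * q → Rep ε n

/-- The integers `1 ≤ v ≤ N` all of whose prime factors belong to `P`. -/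
def composedOf (P : Finset ℕ) (N : ℕ) : Finset ℕ := (Icc 1 N).filter fun v => v.primeFactors ⊆ P

/-- The `y`-smooth integers `1 ≤ v ≤ N`: the integers all of whose prime factors are at most `y`. -/
def smooth (y N : ℕ) : Finset ℕ := (Icc 1 N).filter fun v => ∀ p ∈ v.primeFactors, p ≤ y

open Classical in
/-- Let `J`, `W`, `U`, `K`, `B`, the integer `κ ≠ 0`, `ε > 0` and `δ > 0` be fixed, let `N` be large, `1 ≤ y ≤ log ^ K N`, and let
`c` be an arbitrary integer with `|c| ≤ B N`.

(1) Let `P` be an arbitrary set of primes which are at most `y`, with at least `y ^ (1 / 2 + δ) log N` elements. Then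
for all the integers `v ≤ N` composed of primes from `P`, up to a proportion of at most `1 / log ^ U N` of them, ALL the
moduli `q ≥ 1` with `|q - (c + κ v)| ≤ log ^ W N` have no exceptional even multiples up to `q log ^ J N`: every even `m` with
`0 < m ≤ q log ^ J N` and `q ∣ m` is the sum of two primes in at least `1.3 m / log ^ 2 m` ways, and in the number of ways which
Hardy and Littlewood expect up to a relative error of at most `ε`. (There can be as few as about `N ^ (1 / 2 + δ)` such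
integers `v`.)

(2) In particular this holds for all the `y`-smooth integers `v ≤ N`, up to a proportion of at most `1 / log ^ U N` of them,
if `y ≥ log ^ (2 + δ) N`. -/
theorem result (J W U K B : ℕ) (κ : ℤ) (hκ : κ ≠ 0) (ε : ℝ) (hε : 0 < ε) (δ : ℝ) (hδ : 0 < δ) :
    ∃ N₀ : ℕ, ∀ N, N₀ ≤ N → ∀ y : ℕ, 1 ≤ y → (y : ℝ) ≤ Real.log N ^ K → ∀ c : ℤ, |c| ≤ B * N →
      (∀ P : Finset ℕ, (∀ p ∈ P, p.Prime ∧ p ≤ y) → (y : ℝ) ^ (1 / 2 + δ) * Real.log N ≤ P.card →
        (((composedOf P N).filter fun v : ℕ => ∃ q : ℕ, 1 ≤ q ∧ |((q - (c + κ * v) : ℤ) : ℝ)| ≤ Real.log N ^ W ∧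
          ¬ NoExceptions ε (Real.log N ^ J) q).card : ℝ) ≤ ((composedOf P N).card : ℝ) / Real.log N ^ U) ∧
      (Real.log N ^ (2 + δ) ≤ y →
        (((smooth y N).filter fun v : ℕ => ∃ q : ℕ, 1 ≤ q ∧ |((q - (c + κ * v) : ℤ) : ℝ)| ≤ Real.log N ^ W ∧
          ¬ NoExceptions ε (Real.log N ^ J) q).card : ℝ) ≤ ((smooth y N).card : ℝ) / Real.log N ^ U) := by
  obtain ⟨N₀, h0⟩ := Pool.Agent.N469.TL.both δ hδ K U _ (Pool.Agent.N469.TL.sm_mult κ hκ K B 1 W J U 3 (min ε (1 / 200))
    (lt_min hε (by norm_num)) (Rep ε) (fun m hm _ hw => rep_of ε m hm hw))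
  refine ⟨N₀, fun N hN y hy hy' c hc => ?_⟩
  refine h0 N hN y hy hy' (fun v : ℕ => ∃ q : ℕ, 1 ≤ q ∧ |((q - (c + κ * v) : ℤ) : ℝ)| ≤ Real.log N ^ W ∧
          ¬ NoExceptions ε (Real.log N ^ J) q) (fun v => inferInstance) ⟨c, hc, fun v hv => ?_⟩
  obtain ⟨q, hq1, hq2, hbad⟩ := hv
  unfold NoExceptions at hbad
  push Not at hbad
  obtain ⟨m, hm0, hm2, ⟨h, rfl⟩, hmq, hrep⟩ := hbad
  have hq0 : (0 : ℝ) < q := by exact_mod_cast hq1
  have hh1 : 1 ≤ h := by
    rcases Nat.eq_zero_or_pos h with rfl | h0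
    · simp at hm0
    · exact h0
  have hh2 : (h : ℝ) ≤ Real.log N ^ J := by
    push_cast at hmq
    rw [mul_comm] at hmq
    exact le_of_mul_le_mul_right hmq hq0
  refine ⟨h, hh1, hh2, (q : ℤ) - (c + κ * v), hq2, ?_⟩
  have e : (h : ℤ) * (c + κ * (v : ℤ) + ((q : ℤ) - (c + κ * v))) = ((q * h : ℕ) : ℤ) := by push_cast; ring
  rw [e, Int.toNat_natCast]
  exact ⟨by exact_mod_cast hm0, by exact_mod_cast hm2.two_dvd, hrep⟩

end Pool.Agent.Results.MP_92f640_nt.SmoothModuli
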